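import Mathlib

/-! Boundedness of all positive solutions of `x_{n+1} = γ + x_{n-2m} / x_{n-1}`. -/

namespace Pool.Agent.Lib.MP_2c59d0_an

section small

variable {γ : ℝ} {m : ℕ} {y : ℕ → ℝ}

/-- the growth factor -/
noncomputable def G (γ : ℝ) : ℝ := 1 / (γ * (1 - γ))

theorem one_lt_G (h0 : 0 < γ) (h1 : γ < 1) : 1 < G γ := by
  unfold G
  rw [lt_div_iff₀ (mul_pos h0 (by linarith))]
  nlinarith

theorem gt_gamma (hy : ∀ j, 0 < y j)
    (hrec : ∀ j, y (j + (2 * m + 1)) = γ + y j / y (j + (2 * m + 1) - 2))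
    {n : ℕ} (hn : 2 * m + 1 ≤ n) : γ < y n := by
  obtain ⟨j, rfl⟩ : ∃ j, n = j + (2 * m + 1) := ⟨n - (2 * m + 1), by omega⟩
  rw [hrec]
  have := div_pos (hy j) (hy (j + (2 * m + 1) - 2))
  linarith

theorem growth (h0 : 0 < γ) (h1 : γ < 1) (hy : ∀ j, 0 < y j)
    (hrec : ∀ j, y (j + (2 * m + 1)) = γ + y j / y (j + (2 * m + 1) - 2))
    {j : ℕ} (hj : 2 ≤ j) (hge : 1 ≤ y (j + (2 * m + 1))) :
    y (j + (2 * m + 1)) ≤ G γ * y j := by
  have h2 : γ < y (j + (2 * m + 1) - 2) := gt_gamma hy hrec (by omega)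
  have h3 : y j / y (j + (2 * m + 1) - 2) ≤ y j / γ :=
    div_le_div_of_nonneg_left (hy j).le h0 h2.le
  have h4 := hrec j
  have h5 : y (j + (2 * m + 1)) ≤ γ * y (j + (2 * m + 1)) + y j / γ := by nlinarith
  have h6 : (1 - γ) * y (j + (2 * m + 1)) ≤ y j / γ := by linarith
  have h7 : 0 < 1 - γ := by linarith
  unfold G
  rw [one_div, mul_comm γ, mul_inv, mul_assoc]
  rw [← div_eq_inv_mul, le_div_iff₀ h7, mul_comm _ (1 - γ)]
  rw [inv_mul_eq_div]
  exact h6

/-- going back `i` rounds -/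
theorem back (h0 : 0 < γ) (h1 : γ < 1) (hy : ∀ j, 0 < y j)
    (hrec : ∀ j, y (j + (2 * m + 1)) = γ + y j / y (j + (2 * m + 1) - 2))
    (i : ℕ) : ∀ k, 2 ≤ k → G γ ^ i ≤ y (k + i * (2 * m + 1)) →
      y (k + i * (2 * m + 1)) ≤ G γ ^ i * y k := by
  have hG := one_lt_G h0 h1
  induction i with
  | zero => intro k _ _; simp
  | succ i ih =>
    intro k hk h
    have e : k + (i + 1) * (2 * m + 1) = (k + i * (2 * m + 1)) + (2 * m + 1) := by ring
    rw [e] at h ⊢
    have h2 : 1 ≤ y (k + i * (2 * m + 1) + (2 * m + 1)) :=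
      le_trans (one_le_pow₀ hG.le) h
    have h3 := growth h0 h1 hy hrec (j := k + i * (2 * m + 1)) (by omega) h2
    have h4 : G γ ^ i ≤ y (k + i * (2 * m + 1)) := by
      have : G γ * G γ ^ i ≤ G γ * y (k + i * (2 * m + 1)) := by
        rw [← pow_succ']
        exact h.trans h3
      exact le_of_mul_le_mul_left this (by linarith)
    have h5 := ih k hk h4
    calc _ ≤ _ := h3
      _ ≤ G γ * (G γ ^ i * y k) := mul_le_mul_of_nonneg_left h5 (by linarith)
      _ = _ := by ring

/-- decay against large denominators -/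
theorem kill {u v : ℕ → ℝ} {B c' V : ℝ} {t J : ℕ} (hB : 0 < B)
    (hu : ∀ j, 0 < u j)
    (hrec : ∀ j, u (j + 1) = γ + u j / v (j + 1))
    (hv : ∀ j, t ≤ j → j ≤ J → B ≤ v j) (hV : u t ≤ V) (_hV0 : 0 ≤ V) (hc' : 0 ≤ c')
    (hc : γ + c' / B ≤ c') (i : ℕ) (hi : t + i ≤ J) : u (t + i) ≤ V / B ^ i + c' := by
  induction i with
  | zero => simp only [pow_zero, div_one, add_zero]; linarith
  | succ i ih =>
    have h1 := ih (by omega)
    have h2 : B ≤ v (t + i + 1) := hv _ (by omega) (by omega)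
    rw [← add_assoc, hrec]
    have h3 : u (t + i) / v (t + i + 1) ≤ u (t + i) / B :=
      div_le_div_of_nonneg_left (hu _).le hB h2
    have h4 : u (t + i) / B ≤ (V / B ^ i + c') / B := div_le_div_of_nonneg_right h1 hB.le
    have h5 : (V / B ^ i + c') / B = V / B ^ (i + 1) + c' / B := by
      rw [add_div, div_div, ← pow_succ]
    linarith

/-- growth against small denominators -/
theorem grow {w v : ℕ → ℝ} {c : ℝ} {t J : ℕ} (hγ : 0 < γ) (hc : 0 < c)
    (hw : ∀ j, 0 < w j) (hvpos : ∀ j, 0 < v j)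
    (hrec : ∀ j, w (j + 1) = γ + w j / v (j + 1))
    (hv : ∀ j, t ≤ j → j ≤ J → v j ≤ c) (hw0 : γ ≤ w t)
    (i : ℕ) (hi : t + i ≤ J) : γ * (1 / c) ^ i ≤ w (t + i) := by
  induction i with
  | zero => simpa using hw0
  | succ i ih =>
    have h1 := ih (by omega)
    have h2 : v (t + i + 1) ≤ c := hv _ (by omega) (by omega)
    rw [← add_assoc, hrec]
    have h3 : w (t + i) / c ≤ w (t + i) / v (t + i + 1) :=
      div_le_div_of_nonneg_left (hw _).le (hvpos _) h2
    have h4 : γ * (1 / c) ^ (i + 1) = (γ * (1 / c) ^ i) / c := by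
      rw [pow_succ]; ring
    rw [h4]
    have h5 : (γ * (1 / c) ^ i) / c ≤ w (t + i) / c := div_le_div_of_nonneg_right h1 hc.le
    linarith

theorem bounded_small (h0 : 0 < γ) (h1 : γ < 1) (hm : 1 ≤ m) (hy : ∀ j, 0 < y j)
    (hrec : ∀ j, y (j + (2 * m + 1)) = γ + y j / y (j + (2 * m + 1) - 2)) :
    ∃ R : ℝ, ∀ n, y n ≤ R := by
  have hG := one_lt_G h0 h1
  have hGpos : 0 < G γ := by linarith
  set δ : ℝ := (1 - γ) / 2 with hδ
  have hδpos : 0 < δ := by rw [hδ]; linarith
  set c : ℝ := γ + δ with hc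
  have hc1 : c < 1 := by rw [hc, hδ]; linarith
  have hcpos : 0 < c := by rw [hc]; linarith
  set c' : ℝ := γ + δ / 2 with hc'
  -- the constant B
  set B : ℝ := max (2 / δ) (2 * G γ ^ (m + 1)) with hB
  have hB1 : 2 / δ ≤ B := le_max_left _ _
  have hB2 : 2 * G γ ^ (m + 1) ≤ B := le_max_right _ _
  have hBpos : 0 < B := lt_of_lt_of_le (by positivity) hB1
  have hB1' : 1 < B := by
    have : 1 ≤ G γ ^ (m + 1) := one_le_pow₀ hG.le
    linarith
  have hcB : γ + c' / B ≤ c' := by
    have h2 : c' ≤ 1 := by rw [hc', hδ]; linarith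
    have h3 : c' / B ≤ δ / 2 := by
      rw [div_le_iff₀ hBpos]
      have : 1 ≤ δ / 2 * B := by
        have h4 : δ / 2 * (2 / δ) ≤ δ / 2 * B := mul_le_mul_of_nonneg_left hB1 (by positivity)
        have h5 : δ / 2 * (2 / δ) = 1 := by field_simp
        linarith
      linarith
    rw [hc'] at *
    linarith
  -- the number of growth rounds
  obtain ⟨l, hl⟩ : ∃ l : ℕ, B / γ < (1 / c) ^ l :=
    pow_unbounded_of_one_lt _ (by rw [lt_div_iff₀ hcpos]; linarith)
  have hl' : ∀ i, l ≤ i → B ≤ γ * (1 / c) ^ i := by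
    intro i hi
    have h2 : (1 / c) ^ l ≤ (1 / c) ^ i :=
      pow_le_pow_right₀ (by rw [le_div_iff₀ hcpos]; linarith) hi
    rw [div_lt_iff₀ h0] at hl
    nlinarith
  -- a bound for the initial values
  obtain ⟨M, hM1, hM2⟩ : ∃ M : ℝ, B ≤ M ∧ ∀ i, i ≤ 2 * (2 * m + 1) → y i < M := by
    refine ⟨B + ∑ i ∈ Finset.range (2 * (2 * m + 1) + 1), y i, ?_, ?_⟩
    · have := Finset.sum_nonneg (s := Finset.range (2 * (2 * m + 1) + 1)) (f := y)
        (fun i _ => (hy i).le)
      linarith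
    · intro i hi
      have := Finset.single_le_sum (s := Finset.range (2 * (2 * m + 1) + 1)) (f := y)
        (fun i _ => (hy i).le) (Finset.mem_range.2 (by omega : i < 2 * (2 * m + 1) + 1))
      linarith
  have hMpos : 0 < M := by linarith
  -- the number of killing rounds
  obtain ⟨k, hk⟩ : ∃ k : ℕ, M * G γ ^ (m * l + 4) * (2 / δ) < 2 ^ k :=
    pow_unbounded_of_one_lt _ (by norm_num)
  set J : ℕ := m * (k + l) + k + 2 with hJ
  have hV : M * G γ ^ (J + 2) ≤ B ^ k * (δ / 2) := by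
    have h2 : M * G γ ^ (m * l + 4) ≤ 2 ^ k * (δ / 2) := by
      have h3 : M * G γ ^ (m * l + 4) * (2 / δ) * (δ / 2) ≤ 2 ^ k * (δ / 2) :=
        mul_le_mul_of_nonneg_right hk.le (by positivity)
      have h4 : M * G γ ^ (m * l + 4) * (2 / δ) * (δ / 2) = M * G γ ^ (m * l + 4) := by
        field_simp
      linarith
    have h3 : (2 * G γ ^ (m + 1)) ^ k ≤ B ^ k := pow_le_pow_left₀ (by positivity) hB2 k
    have h4 : M * G γ ^ (J + 2) = (M * G γ ^ (m * l + 4)) * (G γ ^ (m + 1)) ^ k := by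
      rw [← pow_mul, mul_assoc, ← pow_add]
      congr 2
      rw [hJ]; ring
    calc M * G γ ^ (J + 2) = (M * G γ ^ (m * l + 4)) * (G γ ^ (m + 1)) ^ k := h4
      _ ≤ (2 ^ k * (δ / 2)) * (G γ ^ (m + 1)) ^ k :=
          mul_le_mul_of_nonneg_right h2 (by positivity)
      _ = (2 * G γ ^ (m + 1)) ^ k * (δ / 2) := by rw [mul_pow]; ring
      _ ≤ B ^ k * (δ / 2) := mul_le_mul_of_nonneg_right h3 (by positivity)
  set R : ℝ := M * G γ ^ (J + 1) with hR
  have hRM : M ≤ R := by
    have : 1 ≤ G γ ^ (J + 1) := one_le_pow₀ hG.le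
    rw [hR]
    nlinarith
  refine ⟨R, ?_⟩
  by_contra hcon
  push Not at hcon
  -- the first exceedance
  classical
  obtain ⟨ns, hns, hmin⟩ : ∃ ns, R < y ns ∧ ∀ k < ns, y k ≤ R := by
    refine ⟨Nat.find hcon, Nat.find_spec hcon, fun k hk => ?_⟩
    have := Nat.find_min hcon hk
    push Not at this
    exact this
  have hlarge : 2 * (2 * m + 1) < ns := by
    by_contra h
    have := hM2 ns (by omega)
    linarith
  -- going back from `ns`
  have hback : ∀ i k, 2 ≤ k → ns = k + i * (2 * m + 1) → i ≤ J + 1 → R ≤ G γ ^ i * y k := by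
    intro i k hk2 hns2 hi
    have h2 : G γ ^ i ≤ y (k + i * (2 * m + 1)) := by
      rw [← hns2]
      have h3 : G γ ^ i ≤ G γ ^ (J + 1) := pow_le_pow_right₀ hG.le hi
      have h4 : G γ ^ (J + 1) ≤ R := by
        rw [hR]
        have : 0 < G γ ^ (J + 1) := by positivity
        nlinarith
      linarith
    have h3 := back h0 h1 hy hrec i k hk2 h2
    rw [← hns2] at h3
    linarith
  have hns_ge : (J + 1) * (2 * m + 1) + 2 ≤ ns := by
    by_contra hlt
    push Not at hlt
    -- i rounds back we are among the initial values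
    set i := (ns - 2) / (2 * m + 1) with hi
    have hp : 0 < 2 * m + 1 := by omega
    have h2 : i * (2 * m + 1) ≤ ns - 2 := Nat.div_mul_le_self _ _
    have h3 : ns - 2 < (i + 1) * (2 * m + 1) := by
      rw [hi, mul_comm]; exact Nat.lt_mul_div_succ (ns - 2) hp
    have h4 : i ≤ J := by
      have : i * (2 * m + 1) < (J + 1) * (2 * m + 1) := by omega
      exact Nat.lt_succ_iff.1 (Nat.lt_of_mul_lt_mul_right this)
    have h5 : (i + 1) * (2 * m + 1) = i * (2 * m + 1) + (2 * m + 1) := by ring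
    have h6 := hback i (ns - i * (2 * m + 1)) (by omega) (by omega) (by omega)
    have h7 : y (ns - i * (2 * m + 1)) < M := hM2 _ (by omega)
    have h8 : G γ ^ i ≤ G γ ^ (J + 1) := pow_le_pow_right₀ hG.le (by omega)
    have h9 : 0 < G γ ^ i := by positivity
    have h10 : G γ ^ i * y (ns - i * (2 * m + 1)) < G γ ^ i * M := mul_lt_mul_of_pos_left h7 h9
    have h11 : G γ ^ i * M ≤ G γ ^ (J + 1) * M := mul_le_mul_of_nonneg_right h8 hMpos.le
    rw [hR] at h6
    linarith
  obtain ⟨b, hb⟩ : ∃ b, ns = b + J * (2 * m + 1) := by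
    refine ⟨ns - J * (2 * m + 1), ?_⟩
    have : (J + 1) * (2 * m + 1) = J * (2 * m + 1) + (2 * m + 1) := by ring
    omega
  have hb2 : 2 * m + 1 + 2 ≤ b := by
    have : (J + 1) * (2 * m + 1) = J * (2 * m + 1) + (2 * m + 1) := by ring
    omega
  -- upper bound for all values up to `ns`
  have hup : ∀ n ≤ ns, y n ≤ B ^ k * (δ / 2) := by
    have hRle : R ≤ B ^ k * (δ / 2) := by
      have : R * G γ = M * G γ ^ (J + 2) := by rw [hR]; ring
      have hRpos : 0 < R := by linarith
      nlinarith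
    intro n hn
    rcases Nat.lt_or_ge n ns with h | h
    · exact (hmin n h).trans hRle
    · have : n = ns := by omega
      subst this
      obtain ⟨j, hj⟩ : ∃ j, n = j + (2 * m + 1) := ⟨n - (2 * m + 1), by omega⟩
      have h2 : 1 ≤ y (j + (2 * m + 1)) := by rw [← hj]; linarith
      have h3 := growth h0 h1 hy hrec (j := j) (by omega) h2
      rw [← hj] at h3
      have h4 := hmin j (by omega)
      have h5 : G γ * y j ≤ G γ * R := mul_le_mul_of_nonneg_left h4 hGpos.le
      have h6 : G γ * R = M * G γ ^ (J + 2) := by rw [hR]; ring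
      linarith
  -- the helical sequences
  set z : ℕ → ℕ → ℝ := fun s j => y (b + 2 * s + j * (2 * m + 1)) with hz
  have hzpos : ∀ s j, 0 < z s j := fun s j => hy _
  have hzrec : ∀ s j, z (s + 1) (j + 1) = γ + z (s + 1) j / z s (j + 1) := by
    intro s j
    simp only [hz]
    have e1 : b + 2 * (s + 1) + (j + 1) * (2 * m + 1) =
        (b + 2 * (s + 1) + j * (2 * m + 1)) + (2 * m + 1) := by ring
    have e2 : (b + 2 * (s + 1) + j * (2 * m + 1)) + (2 * m + 1) - 2 =
        b + 2 * s + (j + 1) * (2 * m + 1) := by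
      have : (j + 1) * (2 * m + 1) = j * (2 * m + 1) + (2 * m + 1) := by ring
      omega
    rw [e1, hrec, e2]
  have hz0 : ∀ j ≤ J, B ≤ z 0 j := by
    intro j hj
    have h2 := hback (J - j) (b + j * (2 * m + 1)) (by omega) (by
      rw [hb, add_assoc, ← add_mul]
      congr 2
      omega) (by omega)
    have h3 : z 0 j = y (b + j * (2 * m + 1)) := by simp [hz]
    rw [h3]
    have h4 : G γ ^ (J - j) ≤ G γ ^ (J + 1) := pow_le_pow_right₀ hG.le (by omega)
    have h5 : 0 < y (b + j * (2 * m + 1)) := hy _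
    have h6 : G γ ^ (J - j) * y (b + j * (2 * m + 1)) ≤
        G γ ^ (J + 1) * y (b + j * (2 * m + 1)) := mul_le_mul_of_nonneg_right h4 h5.le
    have h7 : G γ ^ (J + 1) * M ≤ G γ ^ (J + 1) * y (b + j * (2 * m + 1)) := by
      rw [hR] at h2; linarith
    have h8 : 0 < G γ ^ (J + 1) := by positivity
    have h9 := le_of_mul_le_mul_left h7 h8
    linarith
  -- killing stage
  have hkill : ∀ q ≤ m, (∀ j, q * (k + l) ≤ j → j ≤ J → B ≤ z (2 * q) j) →
      ∀ j, q * (k + l) + k ≤ j → j ≤ J → z (2 * q + 1) j ≤ c := by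
    intro q hq hH j hj1 hj2
    have hqm : q * (k + l) ≤ m * (k + l) := Nat.mul_le_mul_right _ hq
    obtain ⟨i, rfl⟩ : ∃ i, j = q * (k + l) + i := ⟨j - q * (k + l), by omega⟩
    have hVle : z (2 * q + 1) (q * (k + l)) ≤ B ^ k * (δ / 2) := by
      apply hup
      rw [hb]
      have : (q * (k + l) + 2) * (2 * m + 1) ≤ J * (2 * m + 1) :=
        Nat.mul_le_mul_right _ (by omega)
      have e : (q * (k + l) + 2) * (2 * m + 1) = q * (k + l) * (2 * m + 1) + 2 * (2 * m + 1) := by
        ring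
      omega
    have h2 := kill (u := z (2 * q + 1)) (v := z (2 * q)) (t := q * (k + l)) (J := J) (c' := c')
      (V := B ^ k * (δ / 2)) (γ := γ) hBpos (hzpos _) (hzrec _) hH hVle (by positivity)
      (by rw [hc']; positivity) hcB i hj2
    have h3 : B ^ k * (δ / 2) / B ^ i ≤ δ / 2 := by
      rw [div_le_iff₀ (by positivity), mul_comm]
      apply mul_le_mul_of_nonneg_left _ (by positivity)
      exact pow_le_pow_right₀ hB1'.le (by omega)
    rw [hc'] at h2
    rw [hc]
    linarith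
  -- all stages
  have hstage : ∀ q ≤ m, ∀ j, q * (k + l) ≤ j → j ≤ J → B ≤ z (2 * q) j := by
    intro q
    induction q with
    | zero => intro _ j _ hj; exact hz0 j hj
    | succ q ih =>
      intro hq j hj1 hj2
      have h2 := hkill q (by omega) (ih (by omega))
      have e : (q + 1) * (k + l) = q * (k + l) + k + l := by ring
      obtain ⟨i, rfl⟩ : ∃ i, j = q * (k + l) + k + i := ⟨j - (q * (k + l) + k), by omega⟩
      have h3 := grow (w := z (2 * q + 2)) (v := z (2 * q + 1)) (t := q * (k + l) + k) (J := J)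
        (c := c) h0 hcpos (hzpos _) (hzpos _) (hzrec _) h2
        (gt_gamma hy hrec (by omega)).le i hj2
      exact (hl' i (by omega)).trans h3
  -- contradiction
  have hfin := hkill m le_rfl (hstage m le_rfl) (m * (k + l) + k) le_rfl (by omega)
  have hwrap : z (2 * m + 1) (m * (k + l) + k) = z 0 J := by
    simp only [hz]
    congr 1
    rw [hJ]; ring
  rw [hwrap] at hfin
  have := hz0 J le_rfl
  linarith

end small

section large

variable {γ : ℝ} {m : ℕ} {y : ℕ → ℝ}

theorem bounded_large (h1 : 1 ≤ γ) (hm : 1 ≤ m) (hy : ∀ j, 0 < y j)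
    (hrec : ∀ j, y (j + (2 * m + 1)) = γ + y j / y (j + (2 * m + 1) - 2)) :
    ∃ R : ℝ, ∀ n, y n ≤ R := by
  have h0 : 0 < γ := by linarith
  -- choose ε
  obtain ⟨ε, hε0, hε1, hε2⟩ : ∃ ε : ℝ, 0 < ε ∧ ε ≤ 1 ∧
      ∀ i, 2 * m + 1 ≤ i → i < 2 * (2 * m + 1) → γ + ε ≤ y i ∧ y i ≤ (γ + ε) / ε := by
    have hne : (Finset.Ico (2 * m + 1) (2 * (2 * m + 1))).Nonempty :=
      ⟨2 * m + 1, Finset.mem_Ico.2 ⟨le_rfl, by omega⟩⟩
    obtain ⟨i0, hi0, hmin⟩ := Finset.exists_min_image
      (Finset.Ico (2 * m + 1) (2 * (2 * m + 1))) y hne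
    obtain ⟨i1, hi1, hmax⟩ := Finset.exists_max_image
      (Finset.Ico (2 * m + 1) (2 * (2 * m + 1))) y hne
    have hg0 : γ < y i0 := gt_gamma hy hrec (Finset.mem_Ico.1 hi0).1
    have hpos1 := hy i1
    refine ⟨min (min (y i0 - γ) 1) (γ / y i1), ?_, ?_, ?_⟩
    · exact lt_min (lt_min (by linarith) one_pos) (div_pos h0 hpos1)
    · exact (min_le_left _ _).trans (min_le_right _ _)
    · intro i hi1' hi2'
      have hmem : i ∈ Finset.Ico (2 * m + 1) (2 * (2 * m + 1)) := Finset.mem_Ico.2 ⟨hi1', hi2'⟩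
      have h2 := hmin i hmem
      have h3 := hmax i hmem
      have hε : 0 < min (min (y i0 - γ) 1) (γ / y i1) :=
        lt_min (lt_min (by linarith) one_pos) (div_pos h0 hpos1)
      constructor
      · have : min (min (y i0 - γ) 1) (γ / y i1) ≤ y i0 - γ :=
          (min_le_left _ _).trans (min_le_left _ _)
        linarith
      · rw [le_div_iff₀ hε]
        have h4 : min (min (y i0 - γ) 1) (γ / y i1) ≤ γ / y i1 := min_le_right _ _
        have h5 : y i * min (min (y i0 - γ) 1) (γ / y i1) ≤ y i1 * (γ / y i1) :=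
          mul_le_mul h3 h4 hε.le hpos1.le
        have h6 : y i1 * (γ / y i1) = γ := by field_simp
        linarith
  set L : ℝ := γ + ε with hL
  set U : ℝ := (γ + ε) / ε with hU
  have hLpos : 0 < L := by rw [hL]; linarith
  have hUpos : 0 < U := by rw [hU]; positivity
  have key : ∀ n, 2 * m + 1 ≤ n → L ≤ y n ∧ y n ≤ U := by
    intro n
    induction n using Nat.strong_induction_on with
    | _ n ih =>
      intro hn
      rcases Nat.lt_or_ge n (2 * (2 * m + 1)) with h | h
      · exact hε2 n hn h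
      · obtain ⟨j, rfl⟩ : ∃ j, n = j + (2 * m + 1) := ⟨n - (2 * m + 1), by omega⟩
        have ha := ih j (by omega) (by omega)
        have hb := ih (j + (2 * m + 1) - 2) (by omega) (by omega)
        rw [hrec]
        have hpos := hy (j + (2 * m + 1) - 2)
        constructor
        · have h2 : L / U ≤ y j / y (j + (2 * m + 1) - 2) :=
            div_le_div₀ (hy j).le ha.1 hpos hb.2
          have h3 : L / U = ε := by rw [hU, hL]; field_simp
          rw [h3] at h2
          rw [hL]; linarith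
        · have h2 : y j / y (j + (2 * m + 1) - 2) ≤ U / L :=
            div_le_div₀ hUpos.le ha.2 hLpos hb.1
          have h3 : U / L = 1 / ε := by rw [hU, hL]; field_simp
          rw [h3] at h2
          have h4 : γ + 1 / ε ≤ U := by
            rw [hU, le_div_iff₀ hε0]
            have : (γ + 1 / ε) * ε = γ * ε + 1 := by field_simp
            rw [this]
            nlinarith
          linarith
  refine ⟨U + ∑ i ∈ Finset.range (2 * m + 1), y i, fun n => ?_⟩
  rcases Nat.lt_or_ge n (2 * m + 1) with h | h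
  · have := Finset.single_le_sum (s := Finset.range (2 * m + 1)) (f := y)
      (fun i _ => (hy i).le) (Finset.mem_range.2 h)
    linarith
  · have h2 := (key n h).2
    have := Finset.sum_nonneg (s := Finset.range (2 * m + 1)) (f := y) (fun i _ => (hy i).le)
    linarith

end large

/-- the main theorem, for the equation in the original indexing -/
theorem main (γ : ℝ) (hγ : 0 < γ) (m : ℕ) (hm : 1 ≤ m) (x : ℤ → ℝ)
    (hinit : ∀ n : ℤ, -(2 * m : ℤ) ≤ n → n ≤ 0 → 0 < x n)
    (hrec : ∀ n : ℤ, 0 ≤ n → x (n + 1) = γ + x (n - 2 * m) / x (n - 1)) :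
    ∃ M : ℝ, ∀ n : ℤ, -(2 * m : ℤ) ≤ n → x n ≤ M := by
  -- positivity
  have hpos : ∀ j : ℕ, 0 < x ((j : ℤ) - 2 * m) := by
    intro j
    induction j using Nat.strong_induction_on with
    | _ j ih =>
      rcases Nat.lt_or_ge (2 * m) j with h | h
      · have h2 := hrec ((j : ℤ) - 2 * m - 1) (by omega)
        have e1 : (j : ℤ) - 2 * m - 1 + 1 = (j : ℤ) - 2 * m := by ring
        rw [e1] at h2
        rw [h2]
        have h3 := ih (j - 2 * m - 1) (by omega)
        have h4 := ih (j - 2) (by omega)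
        have e2 : ((j - 2 * m - 1 : ℕ) : ℤ) - 2 * m = (j : ℤ) - 2 * m - 1 - 2 * m := by
          have : ((j - 2 * m - 1 : ℕ) : ℤ) = (j : ℤ) - 2 * m - 1 := by omega
          rw [this]
        have e3 : ((j - 2 : ℕ) : ℤ) - 2 * m = (j : ℤ) - 2 * m - 1 - 1 := by
          have : ((j - 2 : ℕ) : ℤ) = (j : ℤ) - 2 := by omega
          rw [this]; ring
        rw [e2] at h3
        rw [e3] at h4
        have := div_pos h3 h4
        linarith
      · exact hinit _ (by omega) (by omega)
  set y : ℕ → ℝ := fun j => x ((j : ℤ) - 2 * m) with hy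
  have hyrec : ∀ j, y (j + (2 * m + 1)) = γ + y j / y (j + (2 * m + 1) - 2) := by
    intro j
    simp only [hy]
    have h2 := hrec (j : ℤ) (by omega)
    have e1 : ((j + (2 * m + 1) : ℕ) : ℤ) - 2 * m = (j : ℤ) + 1 := by push_cast; ring
    have e2 : ((j + (2 * m + 1) - 2 : ℕ) : ℤ) - 2 * m = (j : ℤ) - 1 := by
      have : ((j + (2 * m + 1) - 2 : ℕ) : ℤ) = (j : ℤ) + 2 * m - 1 := by omega
      rw [this]; ring
    rw [e1, e2, h2]
  obtain ⟨R, hR⟩ : ∃ R : ℝ, ∀ n, y n ≤ R := by
    rcases lt_or_ge γ 1 with h | h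
    · exact bounded_small hγ h hm hpos hyrec
    · exact bounded_large h hm hpos hyrec
  refine ⟨R, fun n hn => ?_⟩
  have h2 := hR (n + 2 * m).toNat
  simp only [hy] at h2
  have e : (((n + 2 * m).toNat : ℕ) : ℤ) - 2 * m = n := by
    rw [Int.toNat_of_nonneg (by omega)]; ring
  rw [e] at h2
  exact h2

end Pool.Agent.Lib.MP_2c59d0_an
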